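import Pool.Agent.helper84.NR.SpecW

set_option autoImplicit false

namespace Pool.Agent.helper84.NR

open scoped Classical
open Finset

theorem CA1_onA {V F : Type} (M : PMap V F) (x y : V) (A : F) (v : V) (m : ℕ) (a : ℕ → V)
    (h : Acc M x y A v m a) : ∀ i, i ≤ m → OnV M.toCyc A (a i) := by
  obtain ⟨hm, _, _, _, he, _, _⟩ := h
  intro i hi
  rcases Nat.lt_or_ge i m with h1 | h1
  · exact ((h_EDG V F M).1 A _ _ (he i h1)).1
  · have h2 := he (m - 1) (by omega)
    have h3 : m - 1 + 1 = i := by omega
    rw [h3] at h2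
    exact ((h_EDG V F M).1 A _ _ h2).2.1

theorem CA1_edge {V F : Type} (M : PMap V F) (x y : V) (A : F) (v : V) (m : ℕ) (a : ℕ → V)
    (h : Acc M x y A v m a) (hx : OnV M.toCyc A x) (f : F) (hf : OnV M.toCyc f x) (k j : ℕ)
    (hj : j ≤ m) (hk : k < j) (hfj : OnV M.toCyc f (a j)) :
    OnE M.toCyc f s(a k, a (k + 1)) := by
  obtain ⟨hm, h0, _, _, he, _, hu⟩ := h
  by_cases hfA : f = A
  · rw [hfA]
    exact he k (by omega)
  · have h1 : j = 1 := hu f hf hfA j (by omega) hj hfj
    have h2 : k = 0 := by omega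
    subst h1
    subst h2
    have h3 := he 0 (by omega)
    apply (h_EDG V F M).2 f (a 0) (a (0 + 1)) ⟨A, h3⟩
    · rw [h0]
      exact hf
    · exact hfj

theorem CA1 : CA1_stmt := by
  intro V F M x y A B v m m' a b hxA hyB ha hb
  have hAa := CA1_onA M x y A v m a ha
  have hBb := CA1_onA M y x B v m' b hb
  have hea := CA1_edge M x y A v m a ha hxA
  have heb := CA1_edge M y x B v m' b hb hyB
  obtain ⟨hm, ha0, ham, hai, hae, han, _⟩ := ha
  obtain ⟨hm', hb0, hbm, hbi, hbe, hbn, _⟩ := hb
  have hq1 : ∀ j, j ≤ m → (fun j => if j ≤ m then a j else b (m + m' - j)) j = a j := by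
    intro j hj
    simp [hj]
  have hq2 : ∀ j, m ≤ j → (fun j => if j ≤ m then a j else b (m + m' - j)) j = b (m + m' - j) := by
    intro j hj
    by_cases h : j ≤ m
    · have h1 : j = m := by omega
      subst h1
      have h2 : j + m' - j = m' := by omega
      simp only [le_refl, if_true]
      rw [h2, ham, hbm]
    · simp only [if_neg h]
  generalize (fun j => if j ≤ m then a j else b (m + m' - j)) = q at hq1 hq2
  refine ⟨m + m', q, ?_, ?_, ?_, ?_, ?_⟩
  · rw [hq1 0 (by omega), ha0]
  · rw [hq2 (m + m') (by omega), show m + m' - (m + m') = 0 by omega, hb0]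
  · have key : ∀ i j, i ≤ j → j ≤ m + m' → q i = q j → i = j := by
      intro i j hij hj h
      rcases Nat.lt_or_ge m j with h1 | h1
      · rcases Nat.lt_or_ge m i with h2 | h2
        · rw [hq2 i (by omega), hq2 j (by omega)] at h
          have := hbi _ _ (by omega) (by omega) h
          omega
        · exfalso
          rw [hq1 i h2, hq2 j (by omega)] at h
          apply hbn (m + m' - j) (by omega)
          exact ⟨A, hxA, h ▸ hAa i h2⟩
      · rw [hq1 i (by omega), hq1 j h1] at h
        exact hai i j (by omega) h1 h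
    intro i j hi hj h
    rcases Nat.le_total i j with h1 | h1
    · exact key i j h1 hj h
    · exact (key j i h1 hi h.symm).symm
  · intro i hi
    rcases Nat.lt_or_ge i m with h1 | h1
    · rw [hq1 i (by omega), hq1 (i + 1) (by omega)]
      exact ⟨A, hae i h1⟩
    · rw [hq2 i h1, hq2 (i + 1) (by omega)]
      have h2 := hbe (m + m' - (i + 1)) (by omega)
      rw [show m + m' - (i + 1) + 1 = m + m' - i by omega] at h2
      refine ⟨B, ?_⟩
      rw [Sym2.eq_swap]
      exact h2
  · intro f hf i j hij hj hi hj' k hik hkj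
    rcases hf with hf | hf
    · have h1 : j ≤ m := by
        by_contra hcon
        rw [hq2 j (by omega)] at hj'
        exact hbn (m + m' - j) (by omega) ⟨f, hf, hj'⟩
      rw [hq1 j h1] at hj'
      rw [hq1 k (by omega), hq1 (k + 1) (by omega)]
      exact hea f hf k j h1 hkj hj'
    · have h1 : m ≤ i := by
        by_contra hcon
        rw [hq1 i (by omega)] at hi
        exact han i (by omega) ⟨f, hf, hi⟩
      rw [hq2 i h1] at hi
      rw [hq2 k (by omega), hq2 (k + 1) (by omega)]
      have h2 := heb f hf (m + m' - (k + 1)) (m + m' - i) (by omega) (by omega) hi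
      rw [show m + m' - (k + 1) + 1 = m + m' - k by omega] at h2
      rw [Sym2.eq_swap]
      exact h2

end Pool.Agent.helper84.NR
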